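import Pool.Agent.Rotor2.Refl

/-!
# The rotor walk on `ℤ²` with i.i.d. uniform rotors is recurrent
(problem MP_5a5e5f_pr, the two-dimensional half of Q1 for the rotational mechanisms)

The proof is in `Pool.Agent.Rotor2` (`recurrent_cw`, `recurrent_ccw`):
* a finitely supported function `c : ℤ² → {0,..,4}` such that no site receives more chips than it
  fires, if every site `x` fires `c x` times, bounds the walk (least action); infinitely many nested
  ones which are `4` on larger and larger boxes give recurrence (`Cert`);
* a closed lattice walk around a box, each step of which is the rotor direction or the rotor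
  direction turned by a quarter turn, gives such a function (`Face`, `Wind`);
* the probability that there is such a walk in an annulus is at least the probability that there is
  an open circuit of critical bond percolation (`Loop`, `Pair`, `Cmp`), which is bounded below by
  a Russo-Seymour-Welsh argument (`Bnd`, `BHalf`, `BKey`, `BStep`, `BRsw`, `FourA`, `FourB`,
  `FourC`).
-/

set_option autoImplicit false

namespace Pool.Agent.Results.MP_5a5e5f_pr.PlanarRecurrence

open MeasureTheory ProbabilityTheory Filter

/-- The unit vectors of `ℤ²` in clockwise order: `0` north, `1` east, `2` south, `3` west. -/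
def unitVec (d : Fin 4) : ℤ × ℤ :=
  if d = 0 then (0, 1) else if d = 1 then (1, 0) else if d = 2 then (0, -1) else (-1, 0)

/-- One step of the rotor walk (prospective convention) with the rotor mechanism `s`.  The state is
the position `p.1` of the particle and the rotor configuration `p.2`: the particle moves in the
direction of the rotor at its position, then this rotor is replaced by its successor. -/
def rotorStep (s : Fin 4 → Fin 4) (p : (ℤ × ℤ) × (ℤ × ℤ → Fin 4)) :
    (ℤ × ℤ) × (ℤ × ℤ → Fin 4) :=
  (p.1 + unitVec (p.2 p.1), Function.update p.2 p.1 (s (p.2 p.1)))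

/-- The position at time `t` of the rotor walk which starts at the origin with the initial rotor
configuration `r`. -/
def rotorWalk (s : Fin 4 → Fin 4) (r : ℤ × ℤ → Fin 4) (t : ℕ) : ℤ × ℤ :=
  ((rotorStep s)^[t] ((0, 0), r)).1

private theorem unitVec_eq (d : Fin 4) : unitVec d = Rotor2.vec d := by
  fin_cases d <;> rfl

private theorem rotorStep_eq (s : Fin 4 → Fin 4) : rotorStep s = Rotor2.step s := by
  funext p
  unfold rotorStep Rotor2.step
  rw [unitVec_eq]

private theorem rotorWalk_eq (s : Fin 4 → Fin 4) (r : ℤ × ℤ → Fin 4) (t : ℕ) :
    rotorWalk s r t = Rotor2.walk s r t := by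
  unfold rotorWalk Rotor2.walk
  rw [rotorStep_eq]

/-- Let `ρ x`, `x ∈ ℤ²`, be independent and uniformly distributed on the four directions, and let
the rotor mechanism `s` be the clockwise one (`d ↦ d + 1`) or the counterclockwise one
(`d ↦ d - 1`).  Then almost surely the rotor walk which starts at the origin visits every site of
`ℤ²` infinitely often; in particular it is recurrent. -/
theorem result {Ω : Type*} [MeasurableSpace Ω] (Q : Measure Ω) [IsProbabilityMeasure Q]
    (ρ : ℤ × ℤ → Ω → Fin 4) (hmeas : ∀ x, Measurable (ρ x)) (hindep : iIndepFun ρ Q)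
    (hunif : ∀ x d, Q {ω | ρ x ω = d} = 1 / 4)
    (s : Fin 4 → Fin 4) (hs : (∀ d, s d = d + 1) ∨ (∀ d, s d = d - 1)) :
    ∀ᵐ ω ∂Q, ∀ y : ℤ × ℤ, ∃ᶠ t : ℕ in atTop, rotorWalk s (fun x => ρ x ω) t = y := by
  have hρ : Rotor2.IsUnif Q ρ := ⟨hmeas, hindep, hunif⟩
  simp only [rotorWalk_eq]
  rcases hs with hs | hs
  · have e : s = fun d => d + 1 := funext hs
    filter_upwards [Rotor2.recurrent_cw hρ] with ω hω y
    rw [e]
    exact frequently_atTop.2 fun T => hω y T
  · have e : s = fun d => d + 3 := funext fun d => (hs d).trans (by fin_cases d <;> rfl)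
    filter_upwards [Rotor2.recurrent_ccw hρ] with ω hω y
    rw [e]
    exact frequently_atTop.2 fun T => hω y T

end Pool.Agent.Results.MP_5a5e5f_pr.PlanarRecurrence
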